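import Pool.Agent.Helper55.RG.Choose

open Filter Topology

namespace Pool.Agent.Results.MP_256668_al.RankGradientZero

/-- An infinite finitely generated group which satisfies a nontrivial law has rank gradient zero
along every descending chain of normal subgroups of finite index with trivial intersection. -/
theorem result {G : Type*} [Group G] [Group.FG G] [Infinite G]
    (hlaw : ∃ (k : ℕ) (w : FreeGroup (Fin k)), w ≠ 1 ∧ ∀ g : Fin k → G, FreeGroup.lift g w = 1)
    (N : ℕ → Subgroup G) (hanti : Antitone N) [∀ i, (N i).Normal] [∀ i, (N i).FiniteIndex]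
    (hinf : ⨅ i, N i = ⊥) :
    Tendsto (fun i => (Group.rank (N i) : ℝ) / ((N i).index : ℝ)) atTop (𝓝 0) := by
  obtain ⟨k, w, hw, hlaw⟩ := hlaw
  exact Pool.Agent.Helper55.RG.rank_gradient_zero w hw hlaw N hanti hinf

end Pool.Agent.Results.MP_256668_al.RankGradientZero
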